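import Pool.Agent.helper73.BS.Spec

/-!
# Row ZC of project bs
-/

set_option autoImplicit false

namespace Pool.Agent.BS

open Matrix Module Pool.Agent.UG

/-- evaluation at the entries of a matrix -/
noncomputable def ZC_ev {n : ℕ} (x : MQ n) : MvPolynomial (Fin n × Fin n) ℚ →+* ℚ :=
  MvPolynomial.eval (fun a : Fin n × Fin n => x a.1 a.2)

/-- the generic matrix -/
noncomputable def ZC_X (n : ℕ) : Matrix (Fin n) (Fin n) (MvPolynomial (Fin n × Fin n) ℚ) :=
  Matrix.of fun i j => MvPolynomial.X (i, j)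

/-- constant matrices -/
noncomputable def ZC_C {n : ℕ} (y : MQ n) : Matrix (Fin n) (Fin n) (MvPolynomial (Fin n × Fin n) ℚ) :=
  (MvPolynomial.C).mapMatrix y

theorem ZC_evX {n : ℕ} (x : MQ n) : (ZC_ev x).mapMatrix (ZC_X n) = x := by
  ext i j
  simp [ZC_ev, ZC_X]

theorem ZC_evC {n : ℕ} (x y : MQ n) : (ZC_ev x).mapMatrix (ZC_C y) = y := by
  ext i j
  simp [ZC_ev, ZC_C]

theorem ZC_poly {n : ℕ} (S E : Set (MQ n)) (hE : ZQ E ⊆ E)
    (Φ : Matrix (Fin n) (Fin n) (MvPolynomial (Fin n × Fin n) ℚ))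
    (h : ∀ s ∈ S, (ZC_ev s).mapMatrix Φ ∈ E) (x : MQ n) (hx : x ∈ ZQ S) :
    (ZC_ev x).mapMatrix Φ ∈ E := by
  apply hE
  intro F hF
  have key : ∀ z : MQ n, MvPolynomial.eval
      (fun a : Fin n × Fin n => ((ZC_ev z).mapMatrix Φ) a.1 a.2) F =
      MvPolynomial.eval (fun a : Fin n × Fin n => z a.1 a.2)
        (MvPolynomial.bind₁ (fun a : Fin n × Fin n => Φ a.1 a.2) F) := by
    intro z
    rw [← MvPolynomial.coe_aeval_eq_eval, ← MvPolynomial.coe_aeval_eq_eval]
    change _ = (MvPolynomial.aeval _) ((MvPolynomial.bind₁ _) F)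
    rw [MvPolynomial.aeval_bind₁]
    rfl
  rw [key x]
  apply hx
  intro s hs
  rw [← key s]
  exact hF _ (h s hs)

theorem ZC (hZG : ZG_stmt) : ZC_stmt := by
  intro n P E hE hcom
  have hadj : ∀ g : SLZ n, (qg g).adjugate = qg g⁻¹ := by
    intro g
    have h1 : (qg g).det = 1 := by
      unfold qg
      rw [← RingHom.map_det, g.2, map_one]
    have h2 : qg g * (qg g).adjugate = 1 := by
      rw [Matrix.mul_adjugate, h1, one_smul]
    calc (qg g).adjugate = (qg g⁻¹ * qg g) * (qg g).adjugate := by rw [qg_inv_mul, one_mul]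
      _ = qg g⁻¹ := by rw [mul_assoc, h2, mul_one]
  have hinv : ∀ x ∈ ZQ (mz P), x⁻¹ = x.adjugate := by
    intro x hx
    have h1 := ((hZG n P).2 x hx).1
    rw [Matrix.inv_def, h1, Ring.inverse_one, one_smul]
  have step1 : ∀ h ∈ P, ∀ x ∈ ZQ (mz P),
      x * qg h * x.adjugate * (qg h).adjugate ∈ E := by
    intro h hh x hx
    have h1 := ZC_poly (mz P) E hE
      (ZC_X n * ZC_C (qg h) * (ZC_X n).adjugate * ZC_C (qg h).adjugate) (by
        rintro s ⟨g, hg, rfl⟩
        rw [map_mul, map_mul, map_mul, RingHom.map_adjugate, ZC_evX, ZC_evC, ZC_evC, hadj, hadj,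
          ← qg_mul, ← qg_mul, ← qg_mul]
        exact hcom g hg h hh) x hx
    rw [map_mul, map_mul, map_mul, RingHom.map_adjugate, ZC_evX, ZC_evC, ZC_evC] at h1
    exact h1
  intro x hx y hy
  have h1 := ZC_poly (mz P) E hE
      (ZC_C x * ZC_X n * ZC_C x.adjugate * (ZC_X n).adjugate) (by
        rintro s ⟨h, hh, rfl⟩
        rw [map_mul, map_mul, map_mul, RingHom.map_adjugate, ZC_evX, ZC_evC, ZC_evC]
        exact step1 h hh x hx) y hy
  rw [map_mul, map_mul, map_mul, RingHom.map_adjugate, ZC_evX, ZC_evC, ZC_evC] at h1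
  rw [hinv x hx, hinv y hy]
  exact h1

end Pool.Agent.BS
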